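import Mathlib

/-!
# Ramsey numbers against graphs of small degeneracy: the embedding part

`core`: if the complement of `F` does not contain `H`, then successively removed vertices of maximum
degree have many neighbours and their neighbourhoods span many edges.
-/

set_option autoImplicit false
set_option linter.unusedSectionVars false

open Finset

namespace Pool.Agent.Helper56.LD

/-- every nonempty set of vertices contains a vertex with at most `d` neighbours in the set -/
def Degenerate {V : Type*} (G : SimpleGraph V) (d : ℕ) : Prop :=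
  ∀ S : Finset V, S.Nonempty → ∃ v ∈ S, {u : V | u ∈ S ∧ G.Adj v u}.ncard ≤ d

section Basic

variable {α : Type*} [DecidableEq α]

open Classical in
/-- neighbours of `u` inside `S` -/
noncomputable def nb (F : SimpleGraph α) (S : Finset α) (u : α) : Finset α :=
  S.filter (fun y => F.Adj u y)

theorem mem_nb {F : SimpleGraph α} {S : Finset α} {u y : α} :
    y ∈ nb F S u ↔ y ∈ S ∧ F.Adj u y := by
  classical
  simp [nb]

theorem Degenerate.nb {G : SimpleGraph α} {d : ℕ} (h : Degenerate G d) (S : Finset α)
    (hS : S.Nonempty) : ∃ v ∈ S, (nb G S v).card ≤ d := by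
  classical
  obtain ⟨v, hv, h1⟩ := h S hS
  refine ⟨v, hv, ?_⟩
  have h2 : {u : α | u ∈ S ∧ G.Adj v u} = (LD.nb G S v : Set α) := by
    ext u
    simp [mem_nb]
  rwa [h2, Set.ncard_coe_finset] at h1

/-- number of ordered adjacent pairs inside `S` -/
noncomputable def pairs (F : SimpleGraph α) (S : Finset α) : ℕ := ∑ x ∈ S, (nb F S x).card

theorem nb_mono {F : SimpleGraph α} {S T : Finset α} (h : S ⊆ T) (u : α) :
    nb F S u ⊆ nb F T u := by
  intro y hy
  rw [mem_nb] at hy ⊢
  exact ⟨h hy.1, hy.2⟩

theorem nb_erase (F : SimpleGraph α) (S : Finset α) (u x : α) :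
    nb F (S.erase u) x = (nb F S x).erase u := by
  ext y
  simp only [mem_nb, Finset.mem_erase]
  tauto

theorem pairs_erase (F : SimpleGraph α) {S : Finset α} {u : α} (hu : u ∈ S) :
    pairs F S = pairs F (S.erase u) + 2 * (nb F S u).card := by
  classical
  unfold pairs
  have h1 : ∑ x ∈ S, (nb F S x).card = (nb F S u).card + ∑ x ∈ S.erase u, (nb F S x).card := by
    rw [Finset.add_sum_erase S (fun x => (nb F S x).card) hu]
  have h2 : ∑ x ∈ S.erase u, (nb F S x).card =
      ∑ x ∈ S.erase u, ((nb F (S.erase u) x).card + if F.Adj u x then 1 else 0) := by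
    apply Finset.sum_congr rfl
    intro x hx
    rw [nb_erase]
    by_cases h : F.Adj u x
    · rw [if_pos h, Finset.card_erase_of_mem]
      · have : 0 < (nb F S x).card := Finset.card_pos.mpr ⟨u, mem_nb.mpr ⟨hu, h.symm⟩⟩
        omega
      · exact mem_nb.mpr ⟨hu, h.symm⟩
    · rw [if_neg h, Finset.erase_eq_of_notMem]
      · simp
      · rw [mem_nb]
        rintro ⟨-, h'⟩
        exact h h'.symm
  have h3 : ∑ x ∈ S.erase u, (if F.Adj u x then 1 else 0) = (nb F S u).card := by
    rw [← Finset.card_filter]
    congr 1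
    ext y
    simp only [Finset.mem_filter, Finset.mem_erase, mem_nb]
    constructor
    · rintro ⟨⟨_, h2⟩, h3⟩
      exact ⟨h2, h3⟩
    · rintro ⟨h2, h3⟩
      exact ⟨⟨h3.ne', h2⟩, h3⟩
  rw [h1, h2, Finset.sum_add_distrib, h3]
  ring

theorem pairs_mono {F : SimpleGraph α} {S T : Finset α} (h : S ⊆ T) : pairs F S ≤ pairs F T := by
  unfold pairs
  calc ∑ x ∈ S, (nb F S x).card ≤ ∑ x ∈ S, (nb F T x).card :=
        Finset.sum_le_sum (fun x _ => Finset.card_le_card (nb_mono h x))
    _ ≤ ∑ x ∈ T, (nb F T x).card := Finset.sum_le_sum_of_subset h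

/-- a vertex of maximum degree inside `S` (junk if `S` is empty) -/
noncomputable def mx [Nonempty α] (F : SimpleGraph α) (S : Finset α) : α := by
  classical
  exact if h : S.Nonempty then
    (Finset.exists_max_image S (fun x => (nb F S x).card) h).choose else Classical.arbitrary α

theorem mx_mem [Nonempty α] (F : SimpleGraph α) {S : Finset α} (h : S.Nonempty) : mx F S ∈ S := by
  unfold mx
  rw [dif_pos h]
  exact (Finset.exists_max_image S (fun x => (nb F S x).card) h).choose_spec.1

theorem le_mx [Nonempty α] (F : SimpleGraph α) {S : Finset α} {x : α} (hx : x ∈ S) :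
    (nb F S x).card ≤ (nb F S (mx F S)).card := by
  have h : S.Nonempty := ⟨x, hx⟩
  unfold mx
  rw [dif_pos h]
  exact (Finset.exists_max_image S (fun x => (nb F S x).card) h).choose_spec.2 x hx

variable [Fintype α]

/-- successive removal of vertices of maximum degree -/
noncomputable def seq [Nonempty α] (F : SimpleGraph α) : ℕ → Finset α
  | 0 => Finset.univ
  | n + 1 => (seq F n).erase (mx F (seq F n))

theorem card_seq [Nonempty α] (F : SimpleGraph α) (n : ℕ) (hn : n ≤ Fintype.card α) :
    (seq F n).card = Fintype.card α - n := by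
  induction n with
  | zero => simp [seq, Finset.card_univ]
  | succ n ih =>
    have h1 := ih (by omega)
    have h2 : (seq F n).Nonempty := by
      rw [← Finset.card_pos]; omega
    rw [seq, Finset.card_erase_of_mem (mx_mem F h2), h1]
    omega

theorem seq_antitone [Nonempty α] (F : SimpleGraph α) {m n : ℕ} (h : m ≤ n) :
    seq F n ⊆ seq F m := by
  induction n, h using Nat.le_induction with
  | base => exact Finset.Subset.refl _
  | succ n _ ih =>
    rw [seq]
    exact (Finset.erase_subset _ _).trans ih

/-- the `n`-th removed vertex and its degree at that time -/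
noncomputable def um [Nonempty α] (F : SimpleGraph α) (n : ℕ) : α := mx F (seq F n)

noncomputable def dg [Nonempty α] (F : SimpleGraph α) (n : ℕ) : ℕ := (nb F (seq F n) (um F n)).card

theorem um_mem [Nonempty α] (F : SimpleGraph α) {n : ℕ} (hn : n < Fintype.card α) :
    um F n ∈ seq F n := by
  apply mx_mem
  rw [← Finset.card_pos, card_seq F n hn.le]
  omega

theorem um_ne [Nonempty α] (F : SimpleGraph α) {m n : ℕ} (h : m < n) (hn : n < Fintype.card α) :
    um F m ≠ um F n := by
  intro he
  have h1 := um_mem F hn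
  have h2 := seq_antitone F (Nat.succ_le_of_lt h) h1
  rw [← he, Nat.succ_eq_add_one, seq] at h2
  exact Finset.notMem_erase _ _ h2

theorem um_injOn [Nonempty α] (F : SimpleGraph α) {t : ℕ} (ht : t ≤ Fintype.card α) :
    Set.InjOn (um F) (Finset.range t : Set ℕ) := by
  intro m hm n hn h
  simp only [Finset.coe_range, Set.mem_Iio] at hm hn
  rcases lt_trichotomy m n with h1 | h1 | h1
  · exact absurd h (um_ne F h1 (by omega))
  · exact h1
  · exact absurd h.symm (um_ne F h1 (by omega))

theorem dg_antitone [Nonempty α] (F : SimpleGraph α) {m n : ℕ} (h : m ≤ n)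
    (hn : n < Fintype.card α) : dg F n ≤ dg F m := by
  have h1 := seq_antitone F h
  calc dg F n ≤ (nb F (seq F m) (um F n)).card := Finset.card_le_card (nb_mono h1 _)
    _ ≤ dg F m := le_mx F (h1 (um_mem F hn))

theorem pairs_seq [Nonempty α] (F : SimpleGraph α) (t : ℕ) (ht : t ≤ Fintype.card α) :
    pairs F Finset.univ = pairs F (seq F t) + 2 * ∑ i ∈ Finset.range t, dg F i := by
  induction t with
  | zero => simp [seq]
  | succ t ih =>
    rw [ih (by omega), pairs_erase F (um_mem F (show t < Fintype.card α by omega)),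
      Finset.sum_range_succ]
    change pairs F (seq F (t + 1)) + 2 * dg F t + _ = _
    ring

end Basic

section Embed

variable {α W : Type*} [DecidableEq α] [DecidableEq W]

/-- one greedy step of the embedding of `H` in the complement of `F` -/
theorem greedy_step (F : SimpleGraph α) (H : SimpleGraph W) (S : Finset α) (T : Finset W) {v : W}
    (hv : v ∈ T) (f : W → α) (hf1 : ∀ w ∈ T.erase v, f w ∈ S)
    (hf2 : Set.InjOn f (T.erase v : Set W))
    (hf3 : ∀ x ∈ T.erase v, ∀ y ∈ T.erase v, H.Adj x y → ¬ F.Adj (f x) (f y))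
    (hc : T.card + ∑ w ∈ nb H T v, (nb F S (f w)).card ≤ S.card) :
    ∃ g : W → α, (∀ w ∈ T, g w ∈ S) ∧ Set.InjOn g (T : Set W) ∧
      ∀ x ∈ T, ∀ y ∈ T, H.Adj x y → ¬ F.Adj (g x) (g y) := by
  classical
  set X := (T.erase v).image f with hX
  set B := (nb H T v).biUnion (fun w => nb F S (f w)) with hB
  have hex : ∃ y ∈ S, y ∉ X ∧ y ∉ B := by
    by_contra hex
    push Not at hex
    have hsub : S ⊆ X ∪ B := by
      intro y hy
      by_cases h : y ∈ X
      · exact Finset.mem_union_left _ h
      · exact Finset.mem_union_right _ (hex y hy h)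
    have hc1 : S.card ≤ X.card + B.card := (Finset.card_le_card hsub).trans (Finset.card_union_le _ _)
    have hc2 : X.card + 1 ≤ T.card := by
      have h1 : X.card ≤ (T.erase v).card := Finset.card_image_le
      rw [Finset.card_erase_of_mem hv] at h1
      have h2 : 0 < T.card := Finset.card_pos.mpr ⟨v, hv⟩
      omega
    have hc3 : B.card ≤ ∑ w ∈ nb H T v, (nb F S (f w)).card := Finset.card_biUnion_le
    omega
  obtain ⟨y, hyS, hyX, hyB⟩ := hex
  refine ⟨Function.update f v y, ?_, ?_, ?_⟩
  · intro w hw
    by_cases h : w = v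
    · subst h; rw [Function.update_self]; exact hyS
    · rw [Function.update_of_ne h]; exact hf1 w (Finset.mem_erase.mpr ⟨h, hw⟩)
  · intro w hw w' hw' e
    rw [Finset.mem_coe] at hw hw'
    by_cases h : w = v
    · by_cases h' : w' = v
      · rw [h, h']
      · exfalso
        subst h
        rw [Function.update_self, Function.update_of_ne h'] at e
        exact hyX (hX ▸ Finset.mem_image.mpr ⟨w', Finset.mem_erase.mpr ⟨h', hw'⟩, e.symm⟩)
    · by_cases h' : w' = v
      · exfalso
        subst h'
        rw [Function.update_self, Function.update_of_ne h] at e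
        exact hyX (hX ▸ Finset.mem_image.mpr ⟨w, Finset.mem_erase.mpr ⟨h, hw⟩, e⟩)
      · rw [Function.update_of_ne h, Function.update_of_ne h'] at e
        exact hf2 (Finset.mem_coe.mpr (Finset.mem_erase.mpr ⟨h, hw⟩))
          (Finset.mem_coe.mpr (Finset.mem_erase.mpr ⟨h', hw'⟩)) e
  · have key : ∀ w ∈ T, H.Adj v w → ¬ F.Adj (f w) y := by
      intro w hw hvw hadj
      apply hyB
      rw [hB, Finset.mem_biUnion]
      exact ⟨w, mem_nb.mpr ⟨hw, hvw⟩, mem_nb.mpr ⟨hyS, hadj⟩⟩
    intro x hx z hz hxz
    by_cases h : x = v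
    · subst h
      have h' : z ≠ x := hxz.ne'
      rw [Function.update_self, Function.update_of_ne h']
      intro hadj
      exact key z hz hxz hadj.symm
    · by_cases h' : z = v
      · subst h'
        rw [Function.update_self, Function.update_of_ne h]
        exact key x hx hxz.symm
      · rw [Function.update_of_ne h, Function.update_of_ne h']
        exact hf3 x (Finset.mem_erase.mpr ⟨h, hx⟩) z (Finset.mem_erase.mpr ⟨h', hz⟩) hxz

/-- greedy embedding of a `d`-degenerate graph in the complement of a graph of small maximum degree -/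
theorem embed_degen [Nonempty α] (F : SimpleGraph α) (H : SimpleGraph W) (S : Finset α) (d K : ℕ)
    (hd : Degenerate H d) (hK : ∀ u ∈ S, (nb F S u).card ≤ K) (T : Finset W)
    (hT : T.card + d * K ≤ S.card) :
    ∃ g : W → α, (∀ w ∈ T, g w ∈ S) ∧ Set.InjOn g (T : Set W) ∧
      ∀ x ∈ T, ∀ y ∈ T, H.Adj x y → ¬ F.Adj (g x) (g y) := by
  classical
  induction hn : T.card generalizing T with
  | zero =>
    rw [Finset.card_eq_zero] at hn
    subst hn
    exact ⟨fun _ => Classical.arbitrary α, by simp, by simp, by simp⟩
  | succ n ih =>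
    have hTn : T.Nonempty := by rw [← Finset.card_pos]; omega
    obtain ⟨v, hv, hdv⟩ := hd.nb T hTn
    have he : (T.erase v).card = n := by rw [Finset.card_erase_of_mem hv]; omega
    obtain ⟨f, hf1, hf2, hf3⟩ := ih (T.erase v) (by omega) he
    refine greedy_step F H S T hv f hf1 hf2 hf3 ?_
    have h1 : ∑ w ∈ nb H T v, (nb F S (f w)).card ≤ ∑ w ∈ nb H T v, K := by
      apply Finset.sum_le_sum
      intro w hw
      rw [mem_nb] at hw
      exact hK _ (hf1 w (Finset.mem_erase.mpr ⟨hw.2.ne', hw.1⟩))
    rw [Finset.sum_const, smul_eq_mul] at h1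
    have h2 : (nb H T v).card * K ≤ d * K := Nat.mul_le_mul_right _ hdv
    omega

/-- two level embedding: the vertices of large degree go into `I`, the rest greedily into `S` -/
theorem embed_two [Nonempty α] [Fintype W] (F : SimpleGraph α) (H : SimpleGraph W) (S I : Finset α)
    (d D : ℕ) (hd : Degenerate H d) (hd1 : 1 ≤ d) (hI : I ⊆ S)
    (hD : ∀ u ∈ S, (nb F S u).card ≤ D)
    (hDI : D ≤ 2 * I.card) (hDeg : ∀ u ∈ I, 4 * d * (nb F I u).card ≤ I.card)
    (hS : Fintype.card W + 4 * pairs H Finset.univ ≤ S.card) (T : Finset W) :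
    ∃ g : W → α, (∀ w ∈ T, g w ∈ S) ∧ Set.InjOn g (T : Set W) ∧
      ∀ x ∈ T, ∀ y ∈ T, H.Adj x y → ¬ F.Adj (g x) (g y) := by
  classical
  induction hn : T.card generalizing T with
  | zero =>
    rw [Finset.card_eq_zero] at hn
    subst hn
    exact ⟨fun _ => Classical.arbitrary α, by simp, by simp, by simp⟩
  | succ n ih =>
    by_cases hsmall : 2 * T.card ≤ I.card
    · obtain ⟨g, hg1, hg2, hg3⟩ := embed_degen F H I d (I.card / (4 * d)) hd (by
        intro u hu
        rw [Nat.le_div_iff_mul_le (by omega)]
        have := hDeg u hu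
        calc (nb F I u).card * (4 * d) = 4 * d * (nb F I u).card := by ring
          _ ≤ I.card := this) T (by
        have h1 : d * (I.card / (4 * d)) * 4 ≤ I.card := by
          calc d * (I.card / (4 * d)) * 4 = (4 * d) * (I.card / (4 * d)) := by ring
            _ ≤ I.card := Nat.mul_div_le _ _
        omega)
      exact ⟨g, fun w hw => hI (hg1 w hw), hg2, hg3⟩
    · push Not at hsmall
      have hTn : T.Nonempty := by rw [← Finset.card_pos]; omega
      obtain ⟨v, hv, hmin⟩ := Finset.exists_min_image T (fun x => (nb H T x).card) hTn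
      have he : (T.erase v).card = n := by rw [Finset.card_erase_of_mem hv]; omega
      obtain ⟨f, hf1, hf2, hf3⟩ := ih (T.erase v) he
      refine greedy_step F H S T hv f hf1 hf2 hf3 ?_
      have h1 : ∑ w ∈ nb H T v, (nb F S (f w)).card ≤ ∑ w ∈ nb H T v, D := by
        apply Finset.sum_le_sum
        intro w hw
        rw [mem_nb] at hw
        exact hD _ (hf1 w (Finset.mem_erase.mpr ⟨hw.2.ne', hw.1⟩))
      rw [Finset.sum_const, smul_eq_mul] at h1
      have h2 : (nb H T v).card * D ≤ (nb H T v).card * (4 * T.card) :=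
        Nat.mul_le_mul_left _ (by omega)
      have h3 : T.card * (nb H T v).card ≤ pairs H Finset.univ := by
        calc T.card * (nb H T v).card = ∑ x ∈ T, (nb H T v).card := by
              rw [Finset.sum_const, smul_eq_mul]
          _ ≤ ∑ x ∈ T, (nb H T x).card := Finset.sum_le_sum (fun x hx => hmin x hx)
          _ = pairs H T := rfl
          _ ≤ pairs H Finset.univ := pairs_mono (Finset.subset_univ T)
      have h4 : T.card ≤ Fintype.card W := Finset.card_le_univ T
      nlinarith

theorem contained_of_embed [Fintype W] (F : SimpleGraph α) (H : SimpleGraph W) (S : Finset α)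
    (h : ∃ g : W → α, (∀ w ∈ (Finset.univ : Finset W), g w ∈ S) ∧
      Set.InjOn g ((Finset.univ : Finset W) : Set W) ∧
      ∀ x ∈ (Finset.univ : Finset W), ∀ y ∈ (Finset.univ : Finset W), H.Adj x y → ¬ F.Adj (g x) (g y)) :
    H.IsContained Fᶜ := by
  obtain ⟨f, -, hf2, hf3⟩ := h
  have hinj : Function.Injective f := by
    intro x y e
    exact hf2 (by simp) (by simp) e
  refine ⟨⟨⟨f, ?_⟩, hinj⟩⟩
  intro x y hxy
  rw [SimpleGraph.compl_adj]
  exact ⟨fun e => hxy.ne (hinj e), hf3 x (Finset.mem_univ _) y (Finset.mem_univ _) hxy⟩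

/-- **Core.** If the complement of `F` does not contain `H`, the removed vertices of maximum degree
have large degree and their neighbourhoods span many edges. -/
theorem core [Fintype α] [Nonempty α] [Fintype W] (F : SimpleGraph α) (H : SimpleGraph W)
    (d m : ℕ) (hd : Degenerate H d) (hd1 : 1 ≤ d) (hm : pairs H Finset.univ = 2 * m)
    (hW : Fintype.card W ≤ 2 * m) (hm1 : 1 ≤ m) (hN : 20 * m ≤ Fintype.card α)
    (hcon : ¬ H.IsContained Fᶜ) (t : ℕ) (ht : 2 * t ≤ Fintype.card α) :
    Fintype.card α < 8 * d * dg F t ∧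
      (dg F t) ^ 2 < 16 * d * pairs F (nb F (seq F t) (um F t)) := by
  classical
  set N := Fintype.card α with hNdef
  have hSc : (seq F t).card = N - t := card_seq F t (by omega)
  have hDmax : ∀ u ∈ seq F t, (nb F (seq F t) u).card ≤ dg F t := fun u hu => le_mx F hu
  constructor
  · by_contra h
    push Not at h
    apply hcon
    apply contained_of_embed F H (seq F t)
    refine embed_degen F H (seq F t) d (dg F t) hd hDmax Finset.univ ?_
    rw [Finset.card_univ, hSc]
    have h1 : 8 * (d * dg F t) ≤ N := by
      calc 8 * (d * dg F t) = 8 * d * dg F t := by ring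
        _ ≤ N := h
    omega
  · by_contra h
    push Not at h
    apply hcon
    apply contained_of_embed F H (seq F t)
    set D := dg F t with hDdef
    set A := nb F (seq F t) (um F t) with hA
    have hAc : A.card = D := rfl
    set I := A.filter (fun x => 8 * d * (nb F A x).card ≤ D) with hI
    have hIA : I ⊆ A := Finset.filter_subset _ _
    have hAS : A ⊆ seq F t := fun y hy => (mem_nb.mp hy).1
    have hIc : D ≤ 2 * I.card := by
      -- vertices of large degree in `A`
      have h1 : ∑ x ∈ A \ I, D ≤ ∑ x ∈ A \ I, 8 * d * (nb F A x).card := by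
        apply Finset.sum_le_sum
        intro x hx
        rw [Finset.mem_sdiff, hI, Finset.mem_filter] at hx
        have : ¬ 8 * d * (nb F A x).card ≤ D := fun h' => hx.2 ⟨hx.1, h'⟩
        omega
      have h2 : ∑ x ∈ A \ I, 8 * d * (nb F A x).card ≤ 8 * d * pairs F A := by
        rw [← Finset.mul_sum]
        apply Nat.mul_le_mul_left
        exact Finset.sum_le_sum_of_subset Finset.sdiff_subset
      rw [Finset.sum_const, smul_eq_mul, Finset.card_sdiff_of_subset hIA, hAc] at h1
      have h3 : (D - I.card) * D ≤ 8 * d * pairs F A := h1.trans h2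
      have h4 : 2 * ((D - I.card) * D) ≤ D ^ 2 := by
        calc 2 * ((D - I.card) * D) ≤ 2 * (8 * d * pairs F A) := Nat.mul_le_mul_left _ h3
          _ = 16 * d * pairs F A := by ring
          _ ≤ D ^ 2 := h
      have hIle : I.card ≤ D := by rw [← hAc]; exact Finset.card_le_card hIA
      rcases Nat.eq_zero_or_pos D with h0 | h0
      · omega
      · have h5 : 2 * (D - I.card) * D ≤ D * D := by
          calc 2 * (D - I.card) * D = 2 * ((D - I.card) * D) := by ring
            _ ≤ D ^ 2 := h4
            _ = D * D := by ring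
        have h6 := Nat.le_of_mul_le_mul_right h5 h0
        omega
    refine embed_two F H (seq F t) I d D hd hd1 (hIA.trans hAS) hDmax hIc ?_ ?_ Finset.univ
    · intro u hu
      have h1 : 8 * d * (nb F A u).card ≤ D := (Finset.mem_filter.mp hu).2
      have h2 : (nb F I u).card ≤ (nb F A u).card := Finset.card_le_card (nb_mono hIA u)
      have h3 : 8 * d * (nb F I u).card ≤ 8 * d * (nb F A u).card := Nat.mul_le_mul_left _ h2
      have h4 : 2 * (4 * d * (nb F I u).card) ≤ 2 * I.card := by
        calc 2 * (4 * d * (nb F I u).card) = 8 * d * (nb F I u).card := by ring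
          _ ≤ D := h3.trans h1
          _ ≤ 2 * I.card := hIc
      omega
    · rw [hm, hSc]
      omega

end Embed

end Pool.Agent.Helper56.LD
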