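import Pool.Agent.Helper56.LD.Emb

/-!
# Ramsey numbers of 3-colourable graphs against graphs of small degeneracy
-/

set_option autoImplicit false
set_option linter.unusedSectionVars false

open Finset

namespace Pool.Agent.Helper56.LD

/-- the number of ordered adjacent pairs -/
theorem pairs_univ {W : Type*} [Fintype W] [DecidableEq W] (H : SimpleGraph W) :
    pairs H Finset.univ = 2 * H.edgeSet.ncard := by
  classical
  have h1 : pairs H Finset.univ = ∑ v, H.degree v := by
    unfold pairs
    apply Finset.sum_congr rfl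
    intro v _
    rw [← SimpleGraph.card_neighborFinset_eq_degree]
    congr 1
    ext y
    simp [mem_nb]
  rw [h1, SimpleGraph.sum_degrees_eq_twice_card_edges, Set.ncard_eq_toFinset_card']
  rfl

/-- the consequences of `core` for a graph on `N` vertices -/
theorem core_fin {W : Type} [Fintype W] (H : SimpleGraph W) (hH : ∀ w : W, ∃ u : W, H.Adj w u)
    (d : ℕ) (hd : Degenerate H d) (N : ℕ) (hN : 20 * H.edgeSet.ncard ≤ N)
    (F : SimpleGraph (Fin N)) (hcon : ¬ H.IsContained Fᶜ) :
    1 ≤ d ∧ 20 ≤ N ∧ ∃ _ : Nonempty (Fin N), ∀ t, 2 * t ≤ N → N < 8 * d * dg F t ∧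
      (dg F t) ^ 2 < 16 * d * pairs F (nb F (seq F t) (um F t)) := by
  classical
  rcases isEmpty_or_nonempty W with hW | hW
  · exact absurd SimpleGraph.IsContained.of_isEmpty hcon
  have hpm := pairs_univ H
  set m := H.edgeSet.ncard with hm
  have hWm : Fintype.card W ≤ 2 * m := by
    rw [← hpm]
    unfold pairs
    calc Fintype.card W = ∑ x : W, 1 := by simp
      _ ≤ ∑ x : W, (nb H Finset.univ x).card := by
        apply Finset.sum_le_sum
        intro x _
        obtain ⟨u, hu⟩ := hH x
        exact Finset.card_pos.mpr ⟨u, mem_nb.mpr ⟨Finset.mem_univ _, hu⟩⟩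
  have hmpos : 1 ≤ m := by
    have : 1 ≤ Fintype.card W := Fintype.card_pos
    omega
  have hd1 : 1 ≤ d := by
    obtain ⟨v, -, hv⟩ := hd.nb Finset.univ Finset.univ_nonempty
    obtain ⟨u, hu⟩ := hH v
    have : 0 < (nb H Finset.univ v).card := Finset.card_pos.mpr ⟨u, mem_nb.mpr ⟨Finset.mem_univ _, hu⟩⟩
    omega
  have hN20 : 20 ≤ N := by omega
  have : Nonempty (Fin N) := ⟨⟨0, by omega⟩⟩
  refine ⟨hd1, hN20, inferInstance, fun t ht => ?_⟩
  have h1 := core F H d m hd hd1 hpm hWm hmpos (by rw [Fintype.card_fin]; exact hN) hcon t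
    (by rw [Fintype.card_fin]; exact ht)
  rwa [Fintype.card_fin] at h1

/-- **3-colourable graphs of degeneracy `q`.** -/
theorem colorable_bound (V : Type) [Fintype V] (G : SimpleGraph V) (q : ℕ) (hq : Degenerate G q)
    (hG : G.Colorable 3) (W : Type) [Fintype W] (H : SimpleGraph W)
    (hH : ∀ w : W, ∃ u : W, H.Adj w u) (d : ℕ) (hd : Degenerate H d) (N : ℕ)
    (hN : 20 * H.edgeSet.ncard ≤ N)
    (hN2 : 3 * Fintype.card V ^ (q + 1) * 3072 ^ ((q + 1) ^ 3) * d ^ (3 * (q + 1) ^ 3) < N)
    (F : SimpleGraph (Fin N)) : G.IsContained F ∨ H.IsContained Fᶜ := by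
  classical
  by_cases hcon : H.IsContained Fᶜ
  · exact Or.inr hcon
  left
  obtain ⟨hd1, hN20, hne, hcore⟩ := core_fin H hH d hd N hN F hcon
  obtain ⟨C⟩ := hG
  have h1 := card_tri_ge F d (by rw [Fintype.card_fin]; exact hN20)
    (by rw [Fintype.card_fin]; exact hcore)
  obtain ⟨U, hU0, hU⟩ := exists_good (ι := Fin (q + 1)) F q (Fintype.card V) (3072 * d ^ 3)
    (Fintype.card_fin _) h1 (by
      rw [Fintype.card_fin]
      refine lt_of_eq_of_lt ?_ hN2
      rw [mul_pow, ← pow_mul]
      exact (mul_assoc _ _ _).symm)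
  exact embed_good F G q hq C U hU0 hU

/-- the sparse graphs of the problem have degeneracy at most 3 -/
theorem sparse_degenerate (V : Type) [Fintype V] (G : SimpleGraph V)
    (hG : ∀ s : Finset V, 2 ≤ s.card → {e ∈ G.edgeSet | ∀ v ∈ e, v ∈ s}.ncard ≤ 2 * s.card - 3) :
    Degenerate G 3 := by
  classical
  intro S hS
  by_contra hcon
  push Not at hcon
  have hcon' : ∀ v ∈ S, 4 ≤ (nb G S v).card := by
    intro v hv
    have h1 := hcon v hv
    have h2 : {u : V | u ∈ S ∧ G.Adj v u} = (nb G S v : Set V) := by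
      ext u
      simp [mem_nb]
    rw [h2, Set.ncard_coe_finset] at h1
    exact h1
  have hS2 : 2 ≤ S.card := by
    obtain ⟨v, hv⟩ := hS
    have h1 := hcon' v hv
    have h2 : nb G S v ⊆ S := fun y hy => (mem_nb.mp hy).1
    have h3 := Finset.card_le_card h2
    omega
  have h1 := hG S hS2
  -- the number of edges inside `S`
  have h2 : pairs G S = 2 * {e ∈ G.edgeSet | ∀ v ∈ e, v ∈ S}.ncard := by
    let G' : SimpleGraph V :=
      { Adj := fun x y => G.Adj x y ∧ x ∈ S ∧ y ∈ S
        symm := ⟨fun x y h => ⟨h.1.symm, h.2.2, h.2.1⟩⟩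
        loopless := ⟨fun x h => G.loopless.irrefl x h.1⟩ }
    have e1 := pairs_univ G'
    have e2 : pairs G' Finset.univ = pairs G S := by
      unfold pairs
      rw [← Finset.sum_subset (Finset.subset_univ S)]
      · apply Finset.sum_congr rfl
        intro x hx
        congr 1
        ext y
        rw [mem_nb, mem_nb]
        exact ⟨fun h => ⟨h.2.2.2, h.2.1⟩, fun h => ⟨Finset.mem_univ _, h.2, hx, h.1⟩⟩
      · intro x _ hx
        rw [Finset.card_eq_zero, Finset.eq_empty_iff_forall_notMem]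
        intro y hy
        exact hx (mem_nb.mp hy).2.2.1
    have e3 : G'.edgeSet = {e ∈ G.edgeSet | ∀ v ∈ e, v ∈ S} := by
      ext e
      induction e using Sym2.ind with
      | _ x y =>
        rw [SimpleGraph.mem_edgeSet, Set.mem_setOf_eq, SimpleGraph.mem_edgeSet]
        constructor
        · intro h
          refine ⟨h.1, fun v hv => ?_⟩
          rcases Sym2.mem_iff.mp hv with rfl | rfl
          · exact h.2.1
          · exact h.2.2
        · rintro ⟨h1, h2⟩
          exact ⟨h1, h2 x (Sym2.mem_mk_left x y), h2 y (Sym2.mem_mk_right x y)⟩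
    rw [← e2, e1, e3]
  have h3 : 4 * S.card ≤ pairs G S := by
    unfold pairs
    calc 4 * S.card = ∑ x ∈ S, 4 := by rw [Finset.sum_const, smul_eq_mul, mul_comm]
      _ ≤ _ := Finset.sum_le_sum hcon'
  omega

end Pool.Agent.Helper56.LD
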