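import Pool.Agent.Helper56.LD.Tri

/-!
# Embedding 3-colourable graphs of bounded degeneracy into graphs with many triangles
-/

set_option autoImplicit false
set_option linter.unusedSectionVars false

open Finset

namespace Pool.Agent.Helper56.LD

section Bad

variable {α : Type*} [Fintype α] [DecidableEq α]

open Classical in
/-- common neighbours of all `a i`, `b i` and `p l` -/
noncomputable def cm {ι κ : Type*} (F : SimpleGraph α) (a b : ι → α) (p : κ → α) : Finset α :=
  Finset.univ.filter (fun w => (∀ i, F.Adj (a i) w) ∧ (∀ i, F.Adj (b i) w) ∧ ∀ l, F.Adj (p l) w)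

theorem mem_cm {ι κ : Type*} {F : SimpleGraph α} {a b : ι → α} {p : κ → α} {w : α} :
    w ∈ cm F a b p ↔ (∀ i, F.Adj (a i) w) ∧ (∀ i, F.Adj (b i) w) ∧ ∀ l, F.Adj (p l) w := by
  classical
  simp [cm]

/-- `c` lies in a small common neighbourhood of `a`, `b` and `q` further vertices -/
def BadT {ι : Type*} (F : SimpleGraph α) (q s : ℕ) (a b c : ι → α) : Prop :=
  ∃ p : Fin q → α, (∀ i, c i ∈ cm F a b p) ∧ (cm F a b p).card < s

open Classical in
theorem card_bad {ι : Type*} [Fintype ι] (F : SimpleGraph α) (q s : ℕ) :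
    (Finset.univ.filter (fun t : (ι → α) × (ι → α) × (ι → α) => BadT F q s t.1 t.2.1 t.2.2)).card ≤
      Fintype.card α ^ (2 * Fintype.card ι + q) * s ^ Fintype.card ι := by
  let A : (ι → α) × (ι → α) × (Fin q → α) → Finset (ι → α) := fun t =>
    if (cm F t.1 t.2.1 t.2.2).card < s then Fintype.piFinset (fun _ : ι => cm F t.1 t.2.1 t.2.2)
    else ∅
  have h1 : Finset.univ.filter
      (fun t : (ι → α) × (ι → α) × (ι → α) => BadT F q s t.1 t.2.1 t.2.2) ⊆
      ((Finset.univ : Finset ((ι → α) × (ι → α) × (Fin q → α))).sigma A).image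
        (fun u => (u.1.1, u.1.2.1, u.2)) := by
    rintro ⟨a, b, c⟩ ht
    obtain ⟨p, hp1, hp2⟩ := (Finset.mem_filter.mp ht).2
    rw [Finset.mem_image]
    refine ⟨⟨(a, b, p), c⟩, ?_, rfl⟩
    rw [Finset.mem_sigma]
    refine ⟨Finset.mem_univ _, ?_⟩
    change c ∈ A (a, b, p)
    change c ∈ if (cm F a b p).card < s then Fintype.piFinset (fun _ : ι => cm F a b p) else ∅
    rw [if_pos hp2, Fintype.mem_piFinset]
    exact hp1
  refine (Finset.card_le_card h1).trans (Finset.card_image_le.trans ?_)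
  rw [Finset.card_sigma]
  have h2 : ∀ t ∈ (Finset.univ : Finset ((ι → α) × (ι → α) × (Fin q → α))),
      (A t).card ≤ s ^ Fintype.card ι := by
    intro t _
    change (if (cm F t.1 t.2.1 t.2.2).card < s then
      Fintype.piFinset (fun _ : ι => cm F t.1 t.2.1 t.2.2) else ∅ : Finset (ι → α)).card ≤ _
    split_ifs with h
    · rw [Fintype.card_piFinset, Finset.prod_const, Finset.card_univ]
      exact Nat.pow_le_pow_left h.le _
    · simp
  refine (Finset.sum_le_sum h2).trans ?_
  rw [Finset.sum_const, smul_eq_mul, Finset.card_univ, Fintype.card_prod, Fintype.card_prod,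
    Fintype.card_fun, Fintype.card_fun, Fintype.card_fin]
  apply le_of_eq
  ring

/-- **Good sets.** -/
theorem exists_good {ι : Type*} [Fintype ι] [Nonempty ι] (F : SimpleGraph α) (q s c : ℕ)
    (hι : Fintype.card ι = q + 1) (h : Fintype.card α ^ 3 ≤ c * (tri F).card)
    (hN : 3 * s ^ (q + 1) * c ^ ((q + 1) ^ 3) < Fintype.card α) :
    ∃ U : Fin 3 → Finset α, (∀ k, (U k).Nonempty) ∧ ∀ k, ∀ p : Fin q → α,
      (∀ l, ∃ i, i ≠ k ∧ p l ∈ U i) → ∃ B ⊆ U k, s ≤ B.card ∧ ∀ w ∈ B, ∀ l, F.Adj (p l) w := by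
  classical
  set N := Fintype.card α with hNdef
  have h1 := card_blow (ι := ι) F c h
  rw [hι, ← hNdef] at h1
  let X : Finset ((ι → α) × (ι → α) × (ι → α)) :=
    Finset.univ.filter (fun t => IsBlow F t.1 t.2.1 t.2.2)
  have hX : Nat.card {p : (ι → α) × (ι → α) × (ι → α) // IsBlow F p.1 p.2.1 p.2.2} = X.card := by
    rw [Nat.card_eq_fintype_card, Fintype.card_subtype]
  rw [hX] at h1
  let B1 : Finset ((ι → α) × (ι → α) × (ι → α)) :=
    Finset.univ.filter (fun t => BadT F q s t.1 t.2.1 t.2.2)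
  let B2 : Finset ((ι → α) × (ι → α) × (ι → α)) :=
    Finset.univ.filter (fun t => BadT F q s t.1 t.2.2 t.2.1)
  let B3 : Finset ((ι → α) × (ι → α) × (ι → α)) :=
    Finset.univ.filter (fun t => BadT F q s t.2.1 t.2.2 t.1)
  have hB1 : B1.card ≤ N ^ (2 * (q + 1) + q) * s ^ (q + 1) := by
    have := card_bad (ι := ι) F q s
    rw [hι] at this
    exact this
  have hB2 : B2.card ≤ B1.card := by
    refine Finset.card_le_card_of_injOn (fun t => (t.1, t.2.2, t.2.1)) ?_ ?_
    · intro t ht
      rw [Finset.mem_coe, Finset.mem_filter] at ht ⊢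
      exact ⟨Finset.mem_univ _, ht.2⟩
    · rintro ⟨a, b, c⟩ - ⟨a', b', c'⟩ - e
      simp only [Prod.mk.injEq] at e ⊢
      exact ⟨e.1, e.2.2, e.2.1⟩
  have hB3 : B3.card ≤ B1.card := by
    refine Finset.card_le_card_of_injOn (fun t => (t.2.1, t.2.2, t.1)) ?_ ?_
    · intro t ht
      rw [Finset.mem_coe, Finset.mem_filter] at ht ⊢
      exact ⟨Finset.mem_univ _, ht.2⟩
    · rintro ⟨a, b, c⟩ - ⟨a', b', c'⟩ - e
      simp only [Prod.mk.injEq] at e ⊢
      exact ⟨e.2.2, e.1, e.2.1⟩
  have hlt : (B1 ∪ B2 ∪ B3).card < X.card := by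
    by_contra hcon
    push Not at hcon
    have h2 : X.card ≤ 3 * (N ^ (2 * (q + 1) + q) * s ^ (q + 1)) := by
      have e1 := Finset.card_union_le (B1 ∪ B2) B3
      have e2 := Finset.card_union_le B1 B2
      omega
    have h3 : N ^ (3 * (q + 1)) ≤ (3 * s ^ (q + 1) * c ^ ((q + 1) ^ 3)) * N ^ (2 * (q + 1) + q) := by
      calc N ^ (3 * (q + 1)) ≤ c ^ ((q + 1) ^ 3) * X.card := h1
        _ ≤ c ^ ((q + 1) ^ 3) * (3 * (N ^ (2 * (q + 1) + q) * s ^ (q + 1))) :=
            Nat.mul_le_mul_left _ h2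
        _ = _ := by ring
    have h4 : N ^ (3 * (q + 1)) = N * N ^ (2 * (q + 1) + q) := by
      rw [← pow_succ']
      congr 1
      ring
    rw [h4] at h3
    have hpos : 0 < N ^ (2 * (q + 1) + q) := by
      have : 0 < N := by omega
      positivity
    have h5 := Nat.le_of_mul_le_mul_right h3 hpos
    omega
  obtain ⟨⟨x, y, z⟩, ht, hnot⟩ := Finset.exists_mem_notMem_of_card_lt_card hlt
  have hb : IsBlow F x y z := (Finset.mem_filter.mp ht).2
  rw [Finset.mem_union, Finset.mem_union, not_or, not_or] at hnot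
  have n1 : ¬ BadT F q s x y z := fun hh => hnot.1.1 (Finset.mem_filter.mpr ⟨Finset.mem_univ _, hh⟩)
  have n2 : ¬ BadT F q s x z y := fun hh => hnot.1.2 (Finset.mem_filter.mpr ⟨Finset.mem_univ _, hh⟩)
  have n3 : ¬ BadT F q s y z x := fun hh => hnot.2 (Finset.mem_filter.mpr ⟨Finset.mem_univ _, hh⟩)
  let e : Fin 0 → α := Fin.elim0
  obtain ⟨i0⟩ := (inferInstance : Nonempty ι)
  refine ⟨![cm F y z e, cm F x z e, cm F x y e], ?_, ?_⟩
  · intro k
    fin_cases k
    · exact ⟨x i0, mem_cm.mpr ⟨fun j => (hb i0 j i0).1.symm, fun j => (hb i0 i0 j).2.2.symm,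
        fun l => l.elim0⟩⟩
    · exact ⟨y i0, mem_cm.mpr ⟨fun j => (hb j i0 i0).1, fun j => (hb i0 i0 j).2.1.symm,
        fun l => l.elim0⟩⟩
    · exact ⟨z i0, mem_cm.mpr ⟨fun j => (hb j i0 i0).2.2, fun j => (hb i0 j i0).2.1,
        fun l => l.elim0⟩⟩
  · intro k p hp
    fin_cases k
    · refine ⟨cm F y z p, ?_, ?_, ?_⟩
      · intro w hw
        rw [mem_cm] at hw
        exact mem_cm.mpr ⟨hw.1, hw.2.1, fun l => l.elim0⟩
      · by_contra hc
        push Not at hc
        refine n3 ⟨p, fun i => mem_cm.mpr ⟨fun j => (hb i j i).1.symm, fun j => (hb i i j).2.2.symm,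
          fun l => ?_⟩, hc⟩
        obtain ⟨k', hk', hl⟩ := hp l
        fin_cases k'
        · exact absurd rfl hk'
        · exact ((mem_cm.mp hl).1 i).symm
        · exact ((mem_cm.mp hl).1 i).symm
      · intro w hw l
        exact (mem_cm.mp hw).2.2 l
    · refine ⟨cm F x z p, ?_, ?_, ?_⟩
      · intro w hw
        rw [mem_cm] at hw
        exact mem_cm.mpr ⟨hw.1, hw.2.1, fun l => l.elim0⟩
      · by_contra hc
        push Not at hc
        refine n2 ⟨p, fun i => mem_cm.mpr ⟨fun j => (hb j i i).1, fun j => (hb i i j).2.1.symm,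
          fun l => ?_⟩, hc⟩
        obtain ⟨k', hk', hl⟩ := hp l
        fin_cases k'
        · exact ((mem_cm.mp hl).1 i).symm
        · exact absurd rfl hk'
        · exact ((mem_cm.mp hl).2.1 i).symm
      · intro w hw l
        exact (mem_cm.mp hw).2.2 l
    · refine ⟨cm F x y p, ?_, ?_, ?_⟩
      · intro w hw
        rw [mem_cm] at hw
        exact mem_cm.mpr ⟨hw.1, hw.2.1, fun l => l.elim0⟩
      · by_contra hc
        push Not at hc
        refine n1 ⟨p, fun i => mem_cm.mpr ⟨fun j => (hb j i i).2.2, fun j => (hb i j i).2.1,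
          fun l => ?_⟩, hc⟩
        obtain ⟨k', hk', hl⟩ := hp l
        fin_cases k'
        · exact ((mem_cm.mp hl).2.1 i).symm
        · exact ((mem_cm.mp hl).2.1 i).symm
        · exact absurd rfl hk'
      · intro w hw l
        exact (mem_cm.mp hw).2.2 l

end Bad

/-- a finite set of at most `q` elements is listed by a function on `Fin q` -/
theorem exists_list {α : Type*} [DecidableEq α] (A : Finset α) (q : ℕ) (hA : A.card ≤ q) (a0 : α) :
    ∃ p : Fin q → α, (∀ l, p l ∈ A ∨ p l = a0) ∧ ∀ a ∈ A, ∃ l, p l = a := by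
  classical
  refine ⟨fun l => if h : l.1 < A.card then (A.equivFin.symm ⟨l.1, h⟩).1 else a0, ?_, ?_⟩
  · intro l
    by_cases h : l.1 < A.card
    · left
      simp only [h, dif_pos]
      exact (A.equivFin.symm ⟨l.1, h⟩).2
    · right
      simp only [h, dif_neg, not_false_eq_true]
  · intro a ha
    have h1 := (A.equivFin ⟨a, ha⟩).2
    refine ⟨⟨(A.equivFin ⟨a, ha⟩).1, by omega⟩, ?_⟩
    simp only [h1, dif_pos]
    simp

/-- **Embedding.** -/
theorem embed_good {α V : Type*} [DecidableEq α] [Fintype V] [DecidableEq V] (F : SimpleGraph α)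
    (G : SimpleGraph V) (q : ℕ) (hG : Degenerate G q) (C : G.Coloring (Fin 3))
    (U : Fin 3 → Finset α) (hU0 : ∀ k, (U k).Nonempty)
    (hU : ∀ k, ∀ p : Fin q → α, (∀ l, ∃ i, i ≠ k ∧ p l ∈ U i) →
      ∃ B ⊆ U k, Fintype.card V ≤ B.card ∧ ∀ w ∈ B, ∀ l, F.Adj (p l) w) :
    G.IsContained F := by
  classical
  have main : ∀ T : Finset V, ∃ f : V → α, (∀ v ∈ T, f v ∈ U (C v)) ∧ Set.InjOn f (T : Set V) ∧
      ∀ x ∈ T, ∀ y ∈ T, G.Adj x y → F.Adj (f x) (f y) := by
    intro T
    induction hn : T.card generalizing T with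
    | zero =>
      rw [Finset.card_eq_zero] at hn
      subst hn
      obtain ⟨a, -⟩ := hU0 0
      exact ⟨fun _ => a, by simp, by simp, by simp⟩
    | succ n ih =>
      have hTn : T.Nonempty := by rw [← Finset.card_pos]; omega
      obtain ⟨v, hv, hdv⟩ := hG.nb T hTn
      have he : (T.erase v).card = n := by rw [Finset.card_erase_of_mem hv]; omega
      obtain ⟨f, hf1, hf2, hf3⟩ := ih (T.erase v) he
      -- the candidates
      obtain ⟨i0, hi0⟩ : ∃ i0 : Fin 3, i0 ≠ C v := by
        by_cases h : C v = 0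
        · exact ⟨1, by rw [h]; decide⟩
        · exact ⟨0, fun e => h e.symm⟩
      obtain ⟨a0, ha0⟩ := hU0 i0
      obtain ⟨p, hp1, hp2⟩ := exists_list ((nb G T v).image f) q
        (Finset.card_image_le.trans hdv) a0
      have hmem : ∀ u ∈ nb G T v, f u ∈ U (C u) ∧ C u ≠ C v := by
        intro u hu
        rw [mem_nb] at hu
        exact ⟨hf1 u (Finset.mem_erase.mpr ⟨hu.2.ne', hu.1⟩), fun e => C.valid hu.2 e.symm⟩
      obtain ⟨B, hBU, hBc, hBa⟩ := hU (C v) p (by
        intro l
        rcases hp1 l with h | h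
        · obtain ⟨u, hu, hul⟩ := Finset.mem_image.mp h
          rw [← hul]
          exact ⟨C u, (hmem u hu).2, (hmem u hu).1⟩
        · rw [h]
          exact ⟨i0, hi0, ha0⟩)
      have hlt : ((T.erase v).image f).card < B.card := by
        have h1 : ((T.erase v).image f).card ≤ n := he ▸ Finset.card_image_le
        have h2 : T.card ≤ Fintype.card V := Finset.card_le_univ T
        omega
      obtain ⟨w, hwB, hwn⟩ := Finset.exists_mem_notMem_of_card_lt_card hlt
      have hwadj : ∀ u ∈ nb G T v, F.Adj (f u) w := by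
        intro u hu
        obtain ⟨l, hl⟩ := hp2 (f u) (Finset.mem_image_of_mem f hu)
        rw [← hl]
        exact hBa w hwB l
      refine ⟨Function.update f v w, ?_, ?_, ?_⟩
      · intro x hx
        by_cases h : x = v
        · subst h; rw [Function.update_self]; exact hBU hwB
        · rw [Function.update_of_ne h]; exact hf1 x (Finset.mem_erase.mpr ⟨h, hx⟩)
      · intro x hx y hy e
        rw [Finset.mem_coe] at hx hy
        by_cases h : x = v
        · by_cases h' : y = v
          · rw [h, h']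
          · exfalso
            subst h
            rw [Function.update_self, Function.update_of_ne h'] at e
            exact hwn (Finset.mem_image.mpr ⟨y, Finset.mem_erase.mpr ⟨h', hy⟩, e.symm⟩)
        · by_cases h' : y = v
          · exfalso
            subst h'
            rw [Function.update_self, Function.update_of_ne h] at e
            exact hwn (Finset.mem_image.mpr ⟨x, Finset.mem_erase.mpr ⟨h, hx⟩, e⟩)
          · rw [Function.update_of_ne h, Function.update_of_ne h'] at e
            exact hf2 (Finset.mem_coe.mpr (Finset.mem_erase.mpr ⟨h, hx⟩))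
              (Finset.mem_coe.mpr (Finset.mem_erase.mpr ⟨h', hy⟩)) e
      · intro x hx y hy hxy
        by_cases h : x = v
        · subst h
          have h' : y ≠ x := hxy.ne'
          rw [Function.update_self, Function.update_of_ne h']
          exact (hwadj y (mem_nb.mpr ⟨hy, hxy⟩)).symm
        · by_cases h' : y = v
          · subst h'
            rw [Function.update_self, Function.update_of_ne h]
            exact hwadj x (mem_nb.mpr ⟨hx, hxy.symm⟩)
          · rw [Function.update_of_ne h, Function.update_of_ne h']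
            exact hf3 x (Finset.mem_erase.mpr ⟨h, hx⟩) y (Finset.mem_erase.mpr ⟨h', hy⟩) hxy
  obtain ⟨f, -, hf2, hf3⟩ := main Finset.univ
  exact ⟨⟨⟨f, fun {a b} hab => hf3 a (Finset.mem_univ _) b (Finset.mem_univ _) hab⟩,
    fun a b e => hf2 (by simp) (by simp) e⟩⟩

end Pool.Agent.Helper56.LD
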