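import Pool.Agent.Helper56.LD.Core

/-!
# Many triangles, and blow-ups of the triangle
-/

set_option autoImplicit false
set_option linter.unusedSectionVars false

open Finset

namespace Pool.Agent.Helper56.LD

section Tri

variable {α : Type*} [Fintype α] [DecidableEq α]

/-- ordered triangle -/
def IsTri (F : SimpleGraph α) (x y z : α) : Prop := F.Adj x y ∧ F.Adj y z ∧ F.Adj x z

open Classical in
/-- ordered triangles of `F` -/
noncomputable def tri (F : SimpleGraph α) : Finset (α × α × α) :=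
  Finset.univ.filter (fun p => IsTri F p.1 p.2.1 p.2.2)

theorem mem_tri {F : SimpleGraph α} {p : α × α × α} : p ∈ tri F ↔ IsTri F p.1 p.2.1 p.2.2 := by
  classical
  simp [tri]

/-- the triangles found at the successively removed vertices -/
theorem sum_pairs_le_tri [Nonempty α] (F : SimpleGraph α) (h : ℕ) (hh : h ≤ Fintype.card α) :
    ∑ t ∈ Finset.range h, pairs F (nb F (seq F t) (um F t)) ≤ (tri F).card := by
  classical
  have h1 : ∀ t, pairs F (nb F (seq F t) (um F t)) =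
      ((nb F (seq F t) (um F t)).sigma (fun x => nb F (nb F (seq F t) (um F t)) x)).card := by
    intro t
    rw [Finset.card_sigma]
    rfl
  rw [Finset.sum_congr rfl (fun t _ => h1 t), ← Finset.card_sigma]
  refine Finset.card_le_card_of_injOn (fun q => (um F q.1, q.2.1, q.2.2)) ?_ ?_
  · rintro ⟨t, x, y⟩ hq
    simp only [Finset.coe_sigma, Set.mem_sigma_iff, Finset.mem_coe, mem_nb] at hq
    rw [Finset.mem_coe, mem_tri]
    exact ⟨hq.2.1.2, hq.2.2.2, hq.2.2.1.2⟩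
  · rintro ⟨t, x, y⟩ hq ⟨t', x', y'⟩ hq' e
    simp only [Prod.mk.injEq] at e
    simp only [Finset.coe_sigma, Set.mem_sigma_iff, Finset.mem_coe] at hq hq'
    have ht : t = t' := um_injOn F hh (by simpa using hq.1) (by simpa using hq'.1) e.1
    subst ht
    obtain ⟨-, rfl, rfl⟩ := e
    rfl

/-- many triangles: `N ^ 3 ≤ 3072 d ^ 3 T` -/
theorem card_tri_ge [Nonempty α] (F : SimpleGraph α) (d : ℕ)
    (hN : 20 ≤ Fintype.card α)
    (hcore : ∀ t, 2 * t ≤ Fintype.card α → Fintype.card α < 8 * d * dg F t ∧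
      (dg F t) ^ 2 < 16 * d * pairs F (nb F (seq F t) (um F t))) :
    Fintype.card α ^ 3 ≤ 3072 * d ^ 3 * (tri F).card := by
  set N := Fintype.card α with hNdef
  have h1 := sum_pairs_le_tri F (N / 2) (by omega)
  have h2 : ∀ t ∈ Finset.range (N / 2), N ^ 2 ≤ 1024 * d ^ 3 * pairs F (nb F (seq F t) (um F t)) := by
    intro t ht
    rw [Finset.mem_range] at ht
    obtain ⟨h3, h4⟩ := hcore t (by omega)
    calc N ^ 2 ≤ (8 * d * dg F t) ^ 2 := Nat.pow_le_pow_left h3.le 2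
      _ = 64 * d ^ 2 * (dg F t) ^ 2 := by ring
      _ ≤ 64 * d ^ 2 * (16 * d * pairs F (nb F (seq F t) (um F t))) := Nat.mul_le_mul_left _ h4.le
      _ = _ := by ring
  have h3 : (N / 2) * N ^ 2 ≤ 1024 * d ^ 3 * (tri F).card := by
    calc (N / 2) * N ^ 2 = ∑ t ∈ Finset.range (N / 2), N ^ 2 := by
          rw [Finset.sum_const, Finset.card_range, smul_eq_mul]
      _ ≤ ∑ t ∈ Finset.range (N / 2), 1024 * d ^ 3 * pairs F (nb F (seq F t) (um F t)) :=
          Finset.sum_le_sum h2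
      _ = 1024 * d ^ 3 * ∑ t ∈ Finset.range (N / 2), pairs F (nb F (seq F t) (um F t)) := by
          rw [Finset.mul_sum]
      _ ≤ _ := Nat.mul_le_mul_left _ h1
  have h4 : N ≤ 3 * (N / 2) := by omega
  calc N ^ 3 = N * N ^ 2 := by ring
    _ ≤ 3 * (N / 2) * N ^ 2 := Nat.mul_le_mul_right _ h4
    _ = 3 * ((N / 2) * N ^ 2) := by ring
    _ ≤ 3 * (1024 * d ^ 3 * (tri F).card) := Nat.mul_le_mul_left _ h3
    _ = _ := by ring

end Tri

section Blow

/-- power mean inequality for natural numbers -/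
theorem pow_sum_le {A : Type*} [Fintype A] (f : A → ℕ) (n : ℕ) :
    (∑ a, f a) ^ (n + 1) ≤ Fintype.card A ^ n * ∑ a, f a ^ (n + 1) := by
  rcases isEmpty_or_nonempty A with hA | hA
  · simp
  have h := pow_sum_div_card_le_sum_pow (s := (Finset.univ : Finset A)) (f := fun a => (f a : ℝ))
    (fun a _ => Nat.cast_nonneg _) n
  have hc : (0 : ℝ) < (Fintype.card A : ℝ) ^ n := by
    have : 0 < Fintype.card A := Fintype.card_pos
    positivity
  rw [Finset.card_univ, div_le_iff₀ hc] at h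
  have h2 : (((∑ a, f a) ^ (n + 1) : ℕ) : ℝ) ≤ ((Fintype.card A ^ n * ∑ a, f a ^ (n + 1) : ℕ) : ℝ) := by
    push_cast
    linarith
  exact_mod_cast h2

/-- **Blow-up of one side.** -/
theorem blow {A B ι : Type*} [Fintype A] [Fintype B] [Fintype ι] [Nonempty ι]
    (R : A → B → Prop) (c : ℕ)
    (h : Fintype.card A * Fintype.card B ≤ c * Nat.card {p : A × B // R p.1 p.2}) :
    Fintype.card A * Fintype.card B ^ Fintype.card ι ≤
      c ^ Fintype.card ι * Nat.card {p : A × (ι → B) // ∀ i, R p.1 (p.2 i)} := by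
  classical
  rcases isEmpty_or_nonempty A with hA | hA
  · simp
  obtain ⟨n, hn⟩ : ∃ n, Fintype.card ι = n + 1 :=
    ⟨Fintype.card ι - 1, by have : 0 < Fintype.card ι := Fintype.card_pos; omega⟩
  have h1 : Nat.card {p : A × B // R p.1 p.2} = ∑ a, Fintype.card {b // R a b} := by
    rw [← Fintype.card_sigma, ← Nat.card_eq_fintype_card]
    refine Nat.card_congr ⟨fun p => ⟨p.1.1, p.1.2, p.2⟩, fun q => ⟨(q.1, q.2.1), q.2.2⟩, ?_, ?_⟩
    · rintro ⟨⟨a, b⟩, h⟩; rfl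
    · rintro ⟨a, b, h⟩; rfl
  have h2 : Nat.card {p : A × (ι → B) // ∀ i, R p.1 (p.2 i)} =
      ∑ a, (Fintype.card {b // R a b}) ^ Fintype.card ι := by
    have h3 : ∀ a, (Fintype.card {b // R a b}) ^ Fintype.card ι = Fintype.card (ι → {b // R a b}) := by
      intro a
      rw [Fintype.card_fun]
    rw [Finset.sum_congr rfl (fun a _ => h3 a), ← Fintype.card_sigma, ← Nat.card_eq_fintype_card]
    refine Nat.card_congr ⟨fun p => ⟨p.1.1, fun i => ⟨p.1.2 i, p.2 i⟩⟩,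
      fun q => ⟨(q.1, fun i => (q.2 i).1), fun i => (q.2 i).2⟩, ?_, ?_⟩
    · rintro ⟨⟨a, b⟩, h⟩; rfl
    · rintro ⟨a, b⟩; rfl
  rw [h2, hn]
  have h3 := pow_sum_le (fun a => Fintype.card {b // R a b}) n
  rw [← h1] at h3
  have h4 : (Fintype.card A * Fintype.card B) ^ (n + 1) ≤
      c ^ (n + 1) * (Fintype.card A ^ n * ∑ a, Fintype.card {b // R a b} ^ (n + 1)) := by
    calc (Fintype.card A * Fintype.card B) ^ (n + 1)
        ≤ (c * Nat.card {p : A × B // R p.1 p.2}) ^ (n + 1) := Nat.pow_le_pow_left h _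
      _ = c ^ (n + 1) * (Nat.card {p : A × B // R p.1 p.2}) ^ (n + 1) := by rw [mul_pow]
      _ ≤ _ := Nat.mul_le_mul_left _ h3
  have h5 : 0 < Fintype.card A ^ n := by
    have : 0 < Fintype.card A := Fintype.card_pos
    positivity
  refine Nat.le_of_mul_le_mul_left ?_ h5
  calc Fintype.card A ^ n * (Fintype.card A * Fintype.card B ^ (n + 1))
      = (Fintype.card A * Fintype.card B) ^ (n + 1) := by ring
    _ ≤ _ := h4
    _ = Fintype.card A ^ n * (c ^ (n + 1) * ∑ a, Fintype.card {b // R a b} ^ (n + 1)) := by ring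

/-- `x, y, z` are the classes of a (homomorphic) complete tripartite graph -/
def IsBlow {α ι : Type*} (F : SimpleGraph α) (x y z : ι → α) : Prop :=
  ∀ i j k, IsTri F (x i) (y j) (z k)

/-- **Counting blow-ups of the triangle.** -/
theorem card_blow {α ι : Type*} [Fintype α] [DecidableEq α] [Fintype ι] [Nonempty ι]
    (F : SimpleGraph α) (c : ℕ) (h : Fintype.card α ^ 3 ≤ c * (tri F).card) :
    Fintype.card α ^ (3 * Fintype.card ι) ≤ c ^ (Fintype.card ι ^ 3) *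
      Nat.card {p : (ι → α) × (ι → α) × (ι → α) // IsBlow F p.1 p.2.1 p.2.2} := by
  classical
  set N := Fintype.card α with hN
  set r := Fintype.card ι with hr
  -- first step: blow up `x`
  have e1 : (tri F).card = Nat.card {p : (α × α) × α // IsTri F p.2 p.1.1 p.1.2} := by
    rw [tri, ← Fintype.card_subtype, ← Nat.card_eq_fintype_card]
    refine Nat.card_congr ⟨fun p => ⟨((p.1.2.1, p.1.2.2), p.1.1), p.2⟩,
      fun q => ⟨(q.1.2, q.1.1.1, q.1.1.2), q.2⟩, ?_, ?_⟩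
    · rintro ⟨⟨a, b, c⟩, h⟩; rfl
    · rintro ⟨⟨⟨a, b⟩, c⟩, h⟩; rfl
  have s1 := blow (A := α × α) (B := α) (ι := ι) (fun q x => IsTri F x q.1 q.2) c (by
    rw [Fintype.card_prod, ← e1, ← hN]
    calc N * N * N = N ^ 3 := by ring
      _ ≤ _ := h)
  -- second step: blow up `y`
  have e2 : Nat.card {p : (α × α) × (ι → α) // ∀ i, IsTri F (p.2 i) p.1.1 p.1.2} =
      Nat.card {p : (α × (ι → α)) × α // ∀ i, IsTri F (p.1.2 i) p.2 p.1.1} := by
    refine Nat.card_congr ⟨fun p => ⟨((p.1.1.2, p.1.2), p.1.1.1), p.2⟩,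
      fun q => ⟨((q.1.2, q.1.1.1), q.1.1.2), q.2⟩, ?_, ?_⟩
    · rintro ⟨⟨⟨a, b⟩, c⟩, h⟩; rfl
    · rintro ⟨⟨⟨a, b⟩, c⟩, h⟩; rfl
  have s2 := blow (A := α × (ι → α)) (B := α) (ι := ι)
    (fun q y => ∀ i, IsTri F (q.2 i) y q.1) (c ^ r) (by
      rw [← e2, Fintype.card_prod, Fintype.card_fun, ← hN, ← hr]
      rw [Fintype.card_prod, ← hN, ← hr] at s1
      calc N * N ^ r * N = N * N * N ^ r := by ring
        _ ≤ _ := s1)
  -- third step: blow up `z`
  have e3 : Nat.card {p : (α × (ι → α)) × (ι → α) // ∀ j i, IsTri F (p.1.2 i) (p.2 j) p.1.1} =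
      Nat.card {p : ((ι → α) × (ι → α)) × α // ∀ j i, IsTri F (p.1.1 i) (p.1.2 j) p.2} := by
    refine Nat.card_congr ⟨fun p => ⟨((p.1.1.2, p.1.2), p.1.1.1), p.2⟩,
      fun q => ⟨((q.1.2, q.1.1.1), q.1.1.2), q.2⟩, ?_, ?_⟩
    · rintro ⟨⟨⟨a, b⟩, c⟩, h⟩; rfl
    · rintro ⟨⟨⟨a, b⟩, c⟩, h⟩; rfl
  have s3 := blow (A := (ι → α) × (ι → α)) (B := α) (ι := ι)
    (fun q z => ∀ j i, IsTri F (q.1 i) (q.2 j) z) ((c ^ r) ^ r) (by
      rw [← e3, Fintype.card_prod, Fintype.card_fun, ← hN, ← hr]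
      rw [Fintype.card_prod, Fintype.card_fun, ← hN, ← hr] at s2
      calc N ^ r * N ^ r * N = N * N ^ r * N ^ r := by ring
        _ ≤ _ := s2)
  have e4 : Nat.card {p : ((ι → α) × (ι → α)) × (ι → α) //
        ∀ k j i, IsTri F (p.1.1 i) (p.1.2 j) (p.2 k)} =
      Nat.card {p : (ι → α) × (ι → α) × (ι → α) // IsBlow F p.1 p.2.1 p.2.2} := by
    refine Nat.card_congr ⟨fun p => ⟨(p.1.1.1, p.1.1.2, p.1.2), fun i j k => p.2 k j i⟩,
      fun q => ⟨((q.1.1, q.1.2.1), q.1.2.2), fun k j i => q.2 i j k⟩, ?_, ?_⟩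
    · rintro ⟨⟨⟨a, b⟩, c⟩, h⟩; rfl
    · rintro ⟨⟨a, b, c⟩, h⟩; rfl
  rw [← e4]
  rw [Fintype.card_prod, Fintype.card_fun, ← hN, ← hr] at s3
  calc N ^ (3 * r) = N ^ r * N ^ r * N ^ r := by ring
    _ ≤ _ := s3
    _ = _ := by
      congr 1
      rw [← pow_mul, ← pow_mul]
      congr 1
      ring

end Blow

end Pool.Agent.Helper56.LD
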